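import Pool.Agent.V5helper51.CR.Tn2

/-!
# Sums with Dirichlet characters (TNB, ZSB, CHR)
-/

set_option autoImplicit false

namespace Pool.Agent.V5helper51.CR

open Finset Pool.Agent.Y957.VK Pool.Agent.Y70.VK Pool.Agent.N586.RT
open Pool.Agent.Q236.CR
open Pool.Agent.H469R2.NK (e)

theorem tnb : S_TNB := by
  obtain ⟨C, hC⟩ := tn2 7 (by norm_num)
  refine ⟨C, 1 / 10 ^ 10, by positivity, by norm_num, fun N n t κ β hN hn hκ ht => ?_⟩
  refine hC N κ (alb β t n) hN hκ ?_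
  intro j hj
  obtain ⟨hj2, -⟩ := mem_Icc.1 hj
  obtain ⟨hn1, hn2⟩ := mem_Icc.1 hn
  have hal : alb β t n j = al t n j := by
    unfold alb
    rw [if_neg (by omega : ¬ j = 1), add_zero]
  have hN0 : (0 : ℝ) < N := by exact_mod_cast (by omega : 0 < N)
  have hn0 : (0 : ℝ) < n := by exact_mod_cast (by omega : 0 < n)
  have hj0 : (2 : ℝ) ≤ j := by exact_mod_cast hj2
  have hn1' : (N : ℝ) ≤ n := by exact_mod_cast hn1
  have hn2' : (n : ℝ) ≤ 2 * N := by exact_mod_cast hn2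
  have habs : |al t n j| = (N : ℝ) ^ κ / (2 * Real.pi * j * (n : ℝ) ^ j) := by
    unfold al
    rw [abs_div, abs_mul, abs_pow, abs_neg, abs_one, one_pow, one_mul, ht,
      abs_of_pos (by positivity)]
  rw [hal, habs]
  have hp : 0 < (N : ℝ) ^ κ := Real.rpow_pos_of_pos hN0 _
  have hpi := Real.pi_gt_three
  have hpi4 := Real.pi_lt_d2
  constructor
  · apply div_le_div_of_nonneg_left hp.le (by positivity)
    refine mul_le_mul ?_ (pow_le_pow_left₀ hn0.le hn2' j) (by positivity) (by positivity)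
    nlinarith
  · apply div_le_div_of_nonneg_left hp.le (by positivity)
    refine mul_le_mul ?_ (pow_le_pow_left₀ hN0.le hn1' j) (by positivity) (by positivity)
    nlinarith

theorem zsb : S_ZSB := by
  obtain ⟨C, c, hc0, hc1, hT⟩ := tnb
  refine ⟨C + 3, c, hc0, hc1, fun N N' t κ β hN hNN hN2 hκ ht => ?_⟩
  have hN1 : (1 : ℝ) ≤ N := by exact_mod_cast (by omega : 1 ≤ N)
  have hNp : (0 : ℝ) < N := by linarith
  obtain ⟨x, hx⟩ : ∃ x : ℝ, x = (N : ℝ) ^ (2 / 5 : ℝ) := ⟨_, rfl⟩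
  have hx1 : 1 ≤ x := by
    rw [hx]
    exact Real.one_le_rpow hN1 (by norm_num)
  obtain ⟨M, hM⟩ : ∃ M : ℕ, M = ⌊(N : ℝ) ^ (2 / 5 : ℝ)⌋₊ := ⟨_, rfl⟩
  rw [← hx] at hM
  have hM1 : 1 ≤ M := by
    rw [hM]
    exact Nat.le_floor (by simpa using hx1)
  have hM1' : (1 : ℝ) ≤ M := by exact_mod_cast hM1
  have hMx : (M : ℝ) ≤ x := by
    rw [hM]
    exact Nat.floor_le (by linarith)
  have hM2 : (M : ℝ) ^ 2 ≤ (N : ℝ) ^ (4 / 5 : ℝ) := by
    calc (M : ℝ) ^ 2 ≤ x ^ 2 := pow_le_pow_left₀ (by positivity) hMx 2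
      _ = (N : ℝ) ^ (4 / 5 : ℝ) := by
        rw [hx, ← Real.rpow_natCast, ← Real.rpow_mul hNp.le]
        norm_num
  have hM2N : M ^ 2 ≤ N := by
    have h1 : (N : ℝ) ^ (4 / 5 : ℝ) ≤ N := by
      conv_rhs => rw [← Real.rpow_one (N : ℝ)]
      exact Real.rpow_le_rpow_of_exponent_le hN1 (by norm_num)
    exact_mod_cast hM2.trans h1
  obtain ⟨r, hr⟩ : ∃ r : ℕ, r = ⌈5 * κ⌉₊ + 5 := ⟨_, rfl⟩
  have hr5 : 5 * κ + 5 ≤ (r : ℝ) := by
    rw [hr]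
    push_cast
    linarith [Nat.le_ceil (5 * κ)]
  obtain ⟨η, hη⟩ : ∃ η : ℝ, η = c / (1 + κ) ^ 2 := ⟨_, rfl⟩
  obtain ⟨E, hE⟩ : ∃ E : ℝ, E = Real.exp (C * (1 + κ) ^ C) := ⟨_, rfl⟩
  have hE0 : 0 < E := by rw [hE]; exact Real.exp_pos _
  have hκ1 : 1 ≤ 1 + κ := by linarith
  have hη1 : η ≤ 1 / 10 := by
    rw [hη]
    refine le_trans (div_le_self hc0.le ?_) hc1
    exact one_le_pow₀ hκ1
  have h5 : (M : ℝ) ^ 2 / N ≤ (N : ℝ) ^ (-(1 / 5) : ℝ) := by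
    rw [div_le_iff₀ hNp]
    refine hM2.trans (le_of_eq ?_)
    conv_rhs => rw [← Real.rpow_one (N : ℝ), ← Real.rpow_mul hNp.le, one_mul, ← Real.rpow_add hNp]
    norm_num
  have hmain := Pool.Agent.Q53.CR.shb N N' M r t β (by omega) hNN hN2 hM1 hM2N (by omega)
  have hTn : ∀ n ∈ Ioc N N', ‖TT r M (alb β t n)‖ ≤ E * (M : ℝ) ^ 2 * (N : ℝ) ^ (-η) := by
    intro n hn
    obtain ⟨hn1, hn2⟩ := mem_Ioc.1 hn
    have h3 := hT N n t κ β hN (mem_Icc.2 ⟨hn1.le, hn2.trans hN2⟩) hκ ht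
    rw [← hr, ← hx, ← hM, ← hE, ← hη] at h3
    exact h3
  have hsum : ∑ n ∈ Ioc N N', ‖TT r M (alb β t n)‖ ≤
      (N : ℝ) * (E * (M : ℝ) ^ 2 * (N : ℝ) ^ (-η)) := by
    refine (Finset.sum_le_sum hTn).trans ?_
    rw [Finset.sum_const, Nat.card_Ioc, nsmul_eq_mul]
    refine mul_le_mul_of_nonneg_right ?_ (by positivity)
    exact_mod_cast (by omega : N' - N ≤ N)
  have hpow : (N : ℝ) ^ (1 - η) = N * (N : ℝ) ^ (-η) := by
    rw [sub_eq_add_neg, Real.rpow_add hNp, Real.rpow_one]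
  have t1 : 1 / (M : ℝ) ^ 2 * ∑ n ∈ Ioc N N', ‖TT r M (alb β t n)‖ ≤ E * (N : ℝ) ^ (1 - η) := by
    calc 1 / (M : ℝ) ^ 2 * ∑ n ∈ Ioc N N', ‖TT r M (alb β t n)‖
        ≤ 1 / (M : ℝ) ^ 2 * ((N : ℝ) * (E * (M : ℝ) ^ 2 * (N : ℝ) ^ (-η))) :=
          mul_le_mul_of_nonneg_left hsum (by positivity)
      _ = E * (N : ℝ) ^ (1 - η) := by
        rw [hpow]
        field_simp
  have t2 : 2 * (M : ℝ) ^ 2 ≤ 2 * (N : ℝ) ^ (1 - η) := by
    refine mul_le_mul_of_nonneg_left (hM2.trans ?_) (by norm_num)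
    exact Real.rpow_le_rpow_of_exponent_le hN1 (by linarith)
  have t3 : (N : ℝ) * |t| * ((M : ℝ) ^ 2 / N) ^ (r + 1) ≤ (N : ℝ) ^ (1 - η) := by
    have h6 : ((M : ℝ) ^ 2 / N) ^ (r + 1) ≤ (N : ℝ) ^ (-(κ + 6 / 5)) := by
      calc ((M : ℝ) ^ 2 / N) ^ (r + 1) ≤ ((N : ℝ) ^ (-(1 / 5) : ℝ)) ^ (r + 1) :=
            pow_le_pow_left₀ (by positivity) h5 _
        _ = (N : ℝ) ^ (-(1 / 5) * ((r : ℝ) + 1)) := by
          rw [← Real.rpow_natCast, ← Real.rpow_mul hNp.le]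
          push_cast
          ring_nf
        _ ≤ (N : ℝ) ^ (-(κ + 6 / 5)) :=
          Real.rpow_le_rpow_of_exponent_le hN1 (by linarith)
    rw [ht]
    calc (N : ℝ) * (N : ℝ) ^ κ * ((M : ℝ) ^ 2 / N) ^ (r + 1)
        ≤ (N : ℝ) ^ (1 : ℝ) * (N : ℝ) ^ κ * (N : ℝ) ^ (-(κ + 6 / 5)) := by
          rw [Real.rpow_one]
          gcongr
      _ = (N : ℝ) ^ (1 + κ + -(κ + 6 / 5)) := by
          rw [Real.rpow_add hNp, Real.rpow_add hNp]
      _ ≤ (N : ℝ) ^ (1 - η) := Real.rpow_le_rpow_of_exponent_le hN1 (by linarith)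
  have hC : E + 3 ≤ Real.exp (((C + 3 : ℕ) : ℝ) * (1 + κ) ^ (C + 3)) := by
    have h7 : (1 + κ) ^ C ≤ (1 + κ) ^ (C + 3) := pow_le_pow_right₀ hκ1 (by omega)
    have h8 : 1 ≤ (1 + κ) ^ (C + 3) := one_le_pow₀ hκ1
    have h9 : (C : ℝ) * (1 + κ) ^ C + 3 ≤ ((C + 3 : ℕ) : ℝ) * (1 + κ) ^ (C + 3) := by
      push_cast
      have h10 := mul_le_mul_of_nonneg_left h7 (Nat.cast_nonneg C : (0 : ℝ) ≤ C)
      linarith
    refine le_trans ?_ (Real.exp_le_exp.2 h9)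
    rw [Real.exp_add, ← hE]
    have h11 : (3 : ℝ) + 1 ≤ Real.exp 3 := Real.add_one_le_exp 3
    have h12 : 1 ≤ E := by
      rw [hE]
      exact Real.one_le_exp (by positivity)
    nlinarith
  rw [← hη]
  calc ‖∑ n ∈ Ioc N N', e (β * n) * nt t n‖
      ≤ E * (N : ℝ) ^ (1 - η) + 2 * (N : ℝ) ^ (1 - η) + (N : ℝ) ^ (1 - η) :=
        hmain.trans (add_le_add (add_le_add t1 t2) t3)
    _ = (E + 3) * (N : ℝ) ^ (1 - η) := by ring
    _ ≤ _ := mul_le_mul_of_nonneg_right hC (by positivity)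

/-- a bounded function on `ℤ/q` is a combination of additive characters with coefficients at most one -/
theorem expand (q : ℕ) [NeZero q] (f : ZMod q → ℂ) (hf : ∀ x, ‖f x‖ ≤ 1) :
    ∃ c : ZMod q → ℂ, (∀ j, ‖c j‖ ≤ 1) ∧ ∀ n : ℕ, f (n : ZMod q) =
      ∑ j : ZMod q, c j * e ((j.val : ℝ) / q * n) := by
  have hq0 : (q : ℂ) ≠ 0 := by exact_mod_cast NeZero.ne q
  have hqr : (0 : ℝ) < q := by exact_mod_cast (NeZero.pos q)
  refine ⟨fun j => (q : ℂ)⁻¹ * ZMod.dft f j, fun j => ?_, fun n => ?_⟩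
  · rw [norm_mul, norm_inv, Complex.norm_natCast, inv_mul_le_iff₀ hqr, mul_one, ZMod.dft_apply]
    refine (norm_sum_le _ _).trans ?_
    refine (Finset.sum_le_sum (g := fun _ => (1 : ℝ)) fun i _ => ?_).trans ?_
    · rw [norm_smul, AddChar.norm_apply, one_mul]
      exact hf i
    · simp [ZMod.card]
  · have h1 : f = ZMod.dft.symm (ZMod.dft f) := by simp
    conv_lhs => rw [h1]
    rw [ZMod.invDFT_apply, smul_eq_mul, Finset.mul_sum]
    refine Finset.sum_congr rfl fun j _ => ?_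
    have h2 : ZMod.stdAddChar (j * (n : ZMod q)) = e ((j.val : ℝ) / q * n) := by
      have h3 : j * (n : ZMod q) = (((j.val * n : ℕ) : ℤ) : ZMod q) := by
        push_cast
        rw [ZMod.natCast_zmod_val]
      rw [h3, ZMod.stdAddChar_coe]
      unfold Pool.Agent.H469R2.NK.e
      congr 1
      push_cast
      ring
    rw [h2, smul_eq_mul]
    ring

theorem chr_bound (q : ℕ) [NeZero q] (χ : DirichletCharacter ℂ q) (s : Finset ℕ) (g : ℕ → ℂ) (B : ℝ)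
    (hB : ∀ β : ℝ, ‖∑ n ∈ s, e (β * n) * g n‖ ≤ B) :
    ‖∑ n ∈ s, χ (n : ZMod q) * g n‖ ≤ q * B := by
  obtain ⟨c, hc, hf⟩ := expand q (fun x => χ x) (fun x => χ.norm_le_one x)
  have h1 : ∑ n ∈ s, χ (n : ZMod q) * g n =
      ∑ j : ZMod q, c j * ∑ n ∈ s, e ((j.val : ℝ) / q * n) * g n := by
    simp only [Finset.mul_sum]
    rw [Finset.sum_comm]
    refine Finset.sum_congr rfl fun n _ => ?_
    rw [hf n, Finset.sum_mul]
    refine Finset.sum_congr rfl fun j _ => ?_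
    ring
  rw [h1]
  refine (norm_sum_le _ _).trans ?_
  refine (Finset.sum_le_sum (g := fun _ => B) fun j _ => ?_).trans ?_
  · rw [norm_mul]
    calc ‖c j‖ * _ ≤ 1 * B := mul_le_mul (hc j) (hB _) (norm_nonneg _) zero_le_one
      _ = B := one_mul _
  · simp [ZMod.card]

theorem chr : S_CHR := by
  constructor
  · obtain ⟨C, c, hc0, hc1, hZ⟩ := zsb
    refine ⟨C, c, hc0, hc1, fun q _ χ N N' t κ hN hNN hN2 hκ ht => ?_⟩
    exact chr_bound q χ _ _ _ fun β => hZ N N' t κ β hN hNN hN2 hκ ht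
  · obtain ⟨C, hC1, hZ⟩ := Pool.Agent.Q53.CR.sdb
    refine ⟨C, hC1, fun q _ χ N N' t hN hNN hN2 ht => ?_⟩
    exact chr_bound q χ _ _ _ fun β => hZ N N' t β hN hNN hN2 ht

end Pool.Agent.V5helper51.CR
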